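import Pool.Agent.H54.SZ.G
/-! # MP_0e09bd_lc: the instances of hypothesis H are independent over the universal theory of the integers with division and Bezout

For every set `SS` of instances of Schinzel's hypothesis H there is a nonstandard subring of an ultrapower of the ordered ring of
integers with division with remainder and Bezout's identity in which all instances in `SS` hold, while every instance that holds
comes from a member of `SS` by a polynomial substitution. -/
set_option autoImplicit false
open Polynomial Filter Pool.Agent.H54.SZ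

theorem Pool.Agent.Results.MP_0e09bd_lc.IndependentInstances.result
    (SS : Set (Finset ℤ[X])) (hSS : ∀ P ∈ SS, Adm P) :
    ∃ R : Subring ((hyperfilter ℕ : Filter ℕ).Germ ℤ),
    (∃ w : R, ∀ n : ℤ, (n : R) < w) ∧
    (∀ a b : R, 0 < b → ∃ q r : R, a = b * q + r ∧ 0 ≤ r ∧ r < b) ∧
    IsBezout R ∧
    (∀ P ∈ SS, ∀ B : R, ∃ m : R, B < m ∧ ∀ f ∈ P, Prime (aeval m f)) ∧
    (∀ P : Finset ℤ[X], Adm P → P.Nonempty →
      (∀ B : R, ∃ m : R, B < |m| ∧ ∀ f ∈ P, Irreducible (aeval m f)) →
      ∃ S ∈ SS, ∃ u : ℚ[X], ∀ f ∈ P, ∃ g ∈ S,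
        (f.map (Int.castRingHom ℚ)).comp u = g.map (Int.castRingHom ℚ) ∨
        (f.map (Int.castRingHom ℚ)).comp u = - g.map (Int.castRingHom ℚ)) :=
  indep SS hSS
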