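import Pool.Agent.H54.SO.Main
/-! # MP_0e09bd_lc: the instances of hypothesis H are independent over normal open induction

For every set `SS` of instances of Schinzel's hypothesis H there is a nonstandard discretely ordered integrally closed subring of
the hyperreal numbers satisfying open induction in which all instances in `SS` hold (with arbitrarily large solutions), while every
instance with a single nonstandard solution comes from a member of `SS` by a polynomial substitution. -/
set_option autoImplicit false
open Pool.Agent.H54.SZ Pool.Agent.H54.SO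

theorem Pool.Agent.Results.MP_0e09bd_lc.OpenInduction.result
    (SS : Set (Finset (Polynomial ℤ))) (hSS : ∀ P ∈ SS, Adm P) :
    ∃ R : Subring Hyperreal,
    (∃ w : R, ∀ n : ℤ, (n : R) < w) ∧
    (∀ a : R, 0 < a → 1 ≤ a) ∧
    OpenInduction R ∧
    IsIntegrallyClosed R ∧
    (∀ P ∈ SS, ∀ B : R, ∃ m : R, B < m ∧ ∀ f ∈ P, Prime (Polynomial.aeval m f)) ∧
    (∀ P : Finset (Polynomial ℤ), Adm P → P.Nonempty → ∀ m : R, (∀ n : ℤ, m ≠ (n : R)) →
      (∀ f ∈ P, Irreducible (Polynomial.aeval m f)) →
      ∃ S ∈ SS, ∃ u : Polynomial ℚ, ∀ f ∈ P, ∃ g ∈ S,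
        (f.map (Int.castRingHom ℚ)).comp u = g.map (Int.castRingHom ℚ) ∨
        (f.map (Int.castRingHom ℚ)).comp u = - g.map (Int.castRingHom ℚ)) :=
  mainO SS hSS
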